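import Pool.Agent.H15.TG.Targets
import Pool.Agent.H2.ST.Basic

/-!
Board tga_modules, row ZSG: `f` is not central modulo `σ`.
-/

set_option autoImplicit false

namespace Pool.Agent.H5.TG

open MvPolynomial Pool.Agent.H2.ST Pool.Agent.H15.TG

theorem pf_ZSG : T_ZSG := by
  intro k _ _ _ m d W K H f π σ q y ψ l h
  by_contra hcon0
  have hcon : ∀ z ∈ K, σ ∣ br f z := by
    intro z hz
    by_contra hne
    exact hcon0 ⟨z, hz, hne⟩
  have hπK : π ∈ K := (mem_Cf.1 h.hp).1
  have hfπ : br f π = 0 := (mem_Cf.1 h.hp).2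
  have hσ0 : σ ≠ 0 := h.pσ.ne_zero
  have hclaim : ∀ n : ℕ, ∀ z ∈ K, σ ^ (n + 1) ∣ br f z := by
    intro n
    induction n with
    | zero =>
      intro z hz
      rw [zero_add, pow_one]
      exact hcon z hz
    | succ n ih =>
      intro b hb
      obtain ⟨E, hE⟩ := ih b hb
      have h1 : σ ^ (n + 1) ∣ br f (br π b) := ih _ (h.bk π hπK b hb)
      have h2 : br f (br π b) = σ ^ (n + 1) * br π E -
          σ ^ n * (((n + 1 : ℕ) : Pol k m) * q * E) := by
        rw [jac, hfπ, zero_br, zero_add, hE, br_mul, br_pow, h.qb, Nat.add_sub_cancel]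
        ring
      have h3 : σ ^ n * σ ∣ σ ^ n * (((n + 1 : ℕ) : Pol k m) * q * E) := by
        have h4 : σ ^ n * (((n + 1 : ℕ) : Pol k m) * q * E) =
            σ ^ (n + 1) * br π E - br f (br π b) := by rw [h2]; ring
        rw [h4, ← pow_succ]
        exact dvd_sub (dvd_mul_right _ _) h1
      have h4 : σ ∣ ((n + 1 : ℕ) : Pol k m) * q * E :=
        (mul_dvd_mul_iff_left (pow_ne_zero n hσ0)).1 h3
      rcases h.pσ.dvd_or_dvd h4 with h6 | h6
      · exfalso
        rcases h.pσ.dvd_or_dvd h6 with h7 | h7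
        · apply h.pσ.not_isUnit
          apply isUnit_of_dvd_unit h7
          have h8 : IsUnit (((n + 1 : ℕ) : k)) :=
            isUnit_iff_ne_zero.2 (Nat.cast_ne_zero.2 (Nat.succ_ne_zero n))
          have h9 := h8.map (C : k →+* Pol k m)
          rw [map_natCast] at h9
          exact h9
        · exact h.qσ h7
      · obtain ⟨E', rfl⟩ := h6
        exact ⟨E', by rw [hE]; ring⟩
  have hz0 : ∀ z ∈ K, br f z = 0 := by
    intro z hz
    by_contra hne
    obtain ⟨n, hn⟩ := FiniteMultiplicity.of_prime_left h.pσ hne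
    exact hn (hclaim n z hz)
  obtain ⟨c, hc⟩ := h.cn f h.fK (fun g hg => by rw [hz0 g hg]; exact dvd_zero _)
  have hc0 : c = 0 := by
    have h1 := h.fc0
    rw [hc, constantCoeff_C] at h1
    exact h1
  apply h.fn
  rw [hc, hc0, C_0]

end Pool.Agent.H5.TG
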